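import Pool.Agent.Lib.MP_07b2d0_nt.G3.UJ
import Pool.Agent.Lib.MP_07b2d0_nt.G3.Bas

/-!
The two descriptions of the places of a function field.
-/

set_option autoImplicit false

namespace Pool.Agent.Lib.MP_07b2d0_nt.G3

open Polynomial WithZero Fh
open scoped IntermediateField

variable {Ω F : Type} [Field Ω] [Field F] [Algebra Ω F]

theorem isFF_of {z : F} (hz : Transcendental Ω z) (hf : FiniteDimensional Ω⟮z⟯ F) :
    MP_6adaea_nt.IsFF Ω F := ⟨⟨z, hz, hf⟩⟩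

theorem prin_iff [IsAlgClosed Ω] [CharZero Ω] [MP_6adaea_nt.IsFF Ω F] (D : W.Dv Ω F)
    {d : Plc Ω F → ℤ} (hd : ∀ v, d v = D (plE v)) : Prin d ↔ W.cl D = 0 := by
  rw [W.cl_eq_zero]
  constructor
  · rintro ⟨f, f0, hf⟩
    refine ⟨f⁻¹, inv_ne_zero f0, Finsupp.ext fun w => ?_⟩
    obtain ⟨v, rfl⟩ := plE.surjective w
    rw [W.dv_apply, MP_6adaea_nt.Place.ord_inv, plE_ord, neg_neg, ← hf, hd]
  · rintro ⟨f, f0, hf⟩
    exact ⟨f⁻¹, inv_ne_zero f0, fun v => by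
      rw [hd, ← hf, W.dv_apply, plE_ord, map_inv₀, log_inv]⟩

/-- Transport along `plE`. -/
theorem half_iff [IsAlgClosed Ω] [CharZero Ω] [MP_6adaea_nt.IsFF Ω F] (s : W.SA Ω F) :
    Half s.a s.γ s.h ↔ Hf s := by
  refine (Finsupp.equivCongrLeft plE.symm).forall_congr_right.symm.trans
    (forall_congr' fun D => ?_)
  rw [prin_iff (s.dm (2 • D) - 2 • D) fun v => ?_, prin_iff (s.dm D - D) fun _ => ?_, map_sub,
    map_sub, sub_eq_zero, sub_eq_zero, Finsupp.equivCongrLeft_apply, Finsupp.sum_equivMapDomain]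
  · rfl
  · rfl
  · rw [map_nsmul, ← nsmul_sub, Finsupp.smul_apply, nsmul_eq_mul]
    rfl

/-- Principal divisors have finite support and degree zero (`dv`, `deg_dv` of the port). -/
theorem deg_zero [IsAlgClosed Ω] [CharZero Ω] {z : F} (hz : Transcendental Ω z)
    (hf : FiniteDimensional Ω⟮z⟯ F) (f : F) (h0 : f ≠ 0) :
    ∃ D : Plc Ω F →₀ ℤ, (∀ v, D v = log (v.1 f)) ∧ (D.sum fun _ n => n) = 0 := by
  have := isFF_of hz hf
  refine ⟨(W.dv Ω f⁻¹).equivMapDomain plE.symm, fun v => ?_, ?_⟩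
  · exact ((plE v).ord_inv f).trans (neg_neg _)
  · rw [Finsupp.sum_equivMapDomain]
    exact W.deg_dv f⁻¹

end Pool.Agent.Lib.MP_07b2d0_nt.G3
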